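import Mathlib
import Pool.Agent.R338.Rat

/-!
# Vojta's conjecture for algebraic points: the exceptional set depends on `ε`, the error term is linear

`C` is the smooth projective curve `y ^ 2 = f (x)` over `ℚ`, `f = x (x ^ 3 - 2) (x ^ 3 - 8)`, of genus
`3`, and `X = C ^ n`, a smooth projective variety of dimension `n` with ample canonical class. A
canonical divisor of `C` is twice the fibre of `x` over `∞`. So with `A = ⊞ x ^* ∞` one has
`K_X = 2 A`, and `h_A (P) = ∑ h (x_i)`, `h_{K_X} (P) = 2 ∑ h (x_i)` up to bounded functions for the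
points `P = (x_i, y_i)`. Over a point `x` of `ℚ ^ n` lie closed points `P` of `X` of degree at most
`2 ^ n` over `ℚ`; their residue field is generated by the square roots `y_i` of the `f (x_i)`.

A proper closed subset `Z` of `X` has a proper closed image in `(ℙ¹) ^ n`, which (in the affine part)
is in the zero set of a polynomial `G ≠ 0` in `n` variables. If Vojta's inequality holds outside `Z`,
then it holds for all `P` with `G (x) ≠ 0`.

Let `φ` be the duplication map `x (Q) ↦ x (2 Q)` of the elliptic curve `E : w ^ 2 = x ^ 3 - 2`, of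
degree `4`. The zeros of `x (x ^ 3 - 8)` are the abscissae of the points of order `3`. For `Q` in
`E (ℚ)` and `x = x (Q)` the factor `x ^ 3 - 2` of `f (x)` is a square, and
`x (x ^ 3 - 8)` at `x (2 Q)` is a multiple of its value at `x (Q)`, up to bounded factors and
squares: a prime which ramifies in the residue field because of `x (Q)` ramifies already because of
`x (2 Q)`. It is counted only once in the discriminant of the points over
`(x (2 ^ j_1 Q), …, x (2 ^ j_n Q))`.
-/

set_option autoImplicit false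

namespace Pool.Agent.Results.MP_9b9442_nt.DependsOnEpsilon

open NumberField Module

/-- The polynomial `f = x (x ^ 3 - 2) (x ^ 3 - 8)` of degree seven. -/
def f (x : ℚ) : ℚ := x * (x ^ 3 - 2) * (x ^ 3 - 8)

/-- The duplication map `φ` of the elliptic curve `w ^ 2 = x ^ 3 - 2`, a rational function of degree
four (its denominator has no rational zero). -/
def φ (x : ℚ) : ℚ := x * (x ^ 3 + 16) / (4 * (x ^ 3 - 2))

/-- The logarithmic height of a rational number. -/
noncomputable def height (x : ℚ) : ℝ := Real.log ((max x.num.natAbs x.den : ℕ) : ℝ)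

/-- The logarithmic discriminant `log |disc L| / [L : ℚ]`. -/
noncomputable def logDisc (L : Type) [Field L] [NumberField L] : ℝ :=
  Real.log |(discr L : ℝ)| / finrank ℚ L

/-- The inequality `h_K (P) ≤ d (P) + ψ (h_A (P))` for the points `P = (x_i, y_i)` of `X = C ^ n` of
degree at most `2 ^ n` over the rational points `x` with `G (x) ≠ 0`; `L` is the residue field. -/
def VojtaInequality {n : ℕ} (G : MvPolynomial (Fin n) ℚ) (ψ : ℝ → ℝ) : Prop :=
  ∀ (L : Type) [Field L] [NumberField L] (x : Fin n → ℚ) (y : Fin n → L),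
    (∀ i, y i ^ 2 = (f (x i) : L)) → IntermediateField.adjoin ℚ (Set.range y) = ⊤ →
    finrank ℚ L ≤ 2 ^ n → MvPolynomial.eval x G ≠ 0 →
    2 * ∑ i, height (x i) ≤ logDisc L + ψ (∑ i, height (x i))

/-- **The exceptional set depends on `ε`, and the error term cannot be `o(h_A)`.** Let `X = C ^ n`,
which has an ample canonical class, and consider the points of degree at most `2 ^ n` over `ℚ`.

(1) Suppose that Vojta's inequality `h_K (P) ≤ d (P) + ε h_A (P) + c` holds for all of these points
outside the zero set of `G`, where `ε ≥ 0`. Then `G` vanishes on the curve which is the image of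
`x ↦ (φ^{j_1} (x), …, φ^{j_n} (x))` for all exponents `j_i ≤ M` with
`ε ∑ 4 ^ j_i < 2 (∑ 4 ^ j_i - 4 ^ M)`. For `n = 2` these are for example all the curves
`x_2 = φ^j (x_1)` with `ε (1 + 4 ^ j) < 2`: their number grows with `1 / ε`.

(2) For `n ≥ 2`, `G ≠ 0` and every function `ψ (t) = o(t)` the inequality
`h_K (P) ≤ d (P) + ψ (h_A (P))` fails for some of these points outside the zero set of `G`. -/
theorem result :
    (∀ (n : ℕ) (G : MvPolynomial (Fin n) ℚ) (ε c : ℝ), 0 ≤ ε →
      VojtaInequality G (fun t => ε * t + c) →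
      ∀ (j : Fin n → ℕ) (M : ℕ), (∀ i, j i ≤ M) →
        ε * ∑ i, (4 : ℝ) ^ j i < 2 * (∑ i, (4 : ℝ) ^ j i - 4 ^ M) →
        ∀ x : ℚ, MvPolynomial.eval (fun i => φ^[j i] x) G = 0) ∧
    (∀ n : ℕ, 2 ≤ n → ∀ ψ : ℝ → ℝ,
      Filter.Tendsto (fun t => ψ t / t) Filter.atTop (nhds 0) →
      ∀ G : MvPolynomial (Fin n) ℚ, G ≠ 0 → ¬ VojtaInequality G ψ) := by
  have hmain : ∀ (n : ℕ) (G : MvPolynomial (Fin n) ℚ) (ψ : ℝ → ℝ) (ε : ℝ), 0 ≤ ε →
      (∃ C T : ℝ, ∀ t, T ≤ t → ψ t ≤ ε * t + C) → VojtaInequality G ψ →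
      ∀ (j : Fin n → ℕ) (M : ℕ), (∀ i, j i ≤ M) →
        ε * ∑ i, (4 : ℝ) ^ j i < 2 * (∑ i, (4 : ℝ) ^ j i - 4 ^ M) →
        ∀ x : ℚ, MvPolynomial.eval (fun i => φ^[j i] x) G = 0 := by
    intro n G ψ ε hε hψ hV j M hM hj x
    rcases n with _ | n
    · exfalso
      simp only [Finset.univ_eq_empty, Finset.sum_empty, mul_zero, zero_sub] at hj
      have : (0 : ℝ) < 4 ^ M := by positivity
      linarith
    · exact R338.Dbl.main n G ψ ε hε hψ
        (fun L _ _ x y hy htop hdeg hG => hV L x y hy htop hdeg hG) j M hM hj x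
  refine ⟨fun n G ε c hε hV => hmain n G _ ε hε ⟨c, 0, fun t _ => le_rfl⟩ hV, ?_⟩
  intro n hn ψ hψ G hG hV
  apply hG
  refine MvPolynomial.funext_set (fun _ => Set.range R338.Dbl.X)
    (fun _ => Set.infinite_range_of_injective R338.Dbl.X_injective) ?_
  intro z hz
  have hz' : ∀ i, ∃ k, R338.Dbl.X k = z i := fun i => hz i (Set.mem_univ i)
  choose j hj using hz'
  have hM : ∀ i, j i ≤ Finset.univ.sup j := fun i => Finset.le_sup (Finset.mem_univ i)
  set S : ℝ := ∑ i, (4 : ℝ) ^ j i with hS
  -- two different indices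
  have hne : (Finset.univ : Finset (Fin n)).Nonempty := ⟨⟨0, by omega⟩, Finset.mem_univ _⟩
  obtain ⟨a, -, ha⟩ := Finset.exists_mem_eq_sup _ hne j
  obtain ⟨b, hb⟩ : ∃ b : Fin n, b ≠ a := by
    have : Nontrivial (Fin n) := Fin.nontrivial_iff_two_le.2 hn
    exact exists_ne a
  have hlt : (4 : ℝ) ^ (Finset.univ.sup j) < S := by
    have h1 : (4 : ℝ) ^ j a + 4 ^ j b ≤ S := by
      have h2 := Finset.sum_le_sum_of_subset_of_nonneg (f := fun i => (4 : ℝ) ^ j i)
        (Finset.subset_univ ({a, b} : Finset (Fin n))) (fun i _ _ => by positivity)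
      rw [Finset.sum_pair hb.symm] at h2
      exact h2
    have h3 : (0 : ℝ) < 4 ^ j b := by positivity
    rw [ha]
    linarith
  have hS0 : 0 < S := lt_of_le_of_lt (by positivity) hlt
  set ε : ℝ := (S - 4 ^ (Finset.univ.sup j)) / S with hε
  have hε0 : 0 < ε := div_pos (by linarith) hS0
  have hψ' : ∃ C T : ℝ, ∀ t, T ≤ t → ψ t ≤ ε * t + C := by
    have h1 := (hψ.eventually (gt_mem_nhds hε0)).and (Filter.eventually_gt_atTop 0)
    obtain ⟨T, hT⟩ := Filter.eventually_atTop.1 h1
    refine ⟨0, T, fun t ht => ?_⟩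
    obtain ⟨h2, h3⟩ := hT t ht
    rw [div_lt_iff₀ h3] at h2
    linarith
  have h := hmain n G ψ ε hε0.le hψ' hV j _ hM (by
    rw [hε, div_mul_cancel₀ _ hS0.ne']
    linarith) (129 / 100)
  have e : (fun i => φ^[j i] (129 / 100)) = z := by
    funext i
    rw [← hj i]
    rfl
  rw [e] at h
  rw [h, map_zero]

end Pool.Agent.Results.MP_9b9442_nt.DependsOnEpsilon
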