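import Mathlib
import Pool.Agent.R437.Met.Voj

/-!
# Vojta's inequality above the good approximations of almost all points

Let `C_1, …, C_n` be smooth projective curves over number fields and `t_i : C_i → ℙ¹` finite maps
of degree `N_i` which are unramified outside the fibres over rational points
`a_{i 1}, …, a_{i q_i} ≠ ∞`; by Belyi's theorem every curve has such a map with `q_i = 3`. Let `A_i`
be the ring of functions on `C_i` with poles only over `∞`: a Dedekind domain, finite over `ℚ[t]`.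
Let `y_{i j 0} = t - a_{i j}, y_{i j 1}, …` be generators of the radical of the ideal
`(t - a_{i j})`, the ideal of the reduced fibre over `a_{i j}`. By the formula of Riemann and Hurwitz
`(deg K_{C_i}) / N_i = q_i - 2 - (∑_j dim (A_i / (y_{i j 0}, y_{i j 1}, …))) / N_i`.
The points `P` of `C_1 × ⋯ × C_n` (not over `∞`) over a number field `L` are the families of
homomorphisms `φ_i : A_i → L`, `t_i(P) = φ_i(t)`, and
`h_K(P) = ∑_i ((deg K_{C_i}) / N_i) h(t_i(P))` up to `ε ∑_i h(t_i(P)) + O(1)`.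

Let `K` be a number field. We consider Vojta's inequality for ALL points `P` above the elements
`x` of `K ^ n`, for ALL products of curves at once. The starting file `ProductsOfCurves` bounds, for
given curves, the number of exceptional `x` of bounded height. Here we show that there are only
finitely many exceptional `x` among the good approximations of a point `ξ`, for all `ξ` outside one
set of small Hausdorff dimension. For instance, for all real numbers `ξ` outside a set of dimension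
at most `1 / 3` the inequality `h_K(P) ≤ d(P) + c` holds for all points `P` of all curves above almost
all rational numbers `x` with `|ξ - x| ≤ C H(x)^(-2)`, such as the convergents of `ξ`.
-/

set_option autoImplicit false

namespace Pool.Agent.Results.MP_9b9442_nt.GoodApproximations

open Polynomial NumberField

/-- The function `t`. -/
noncomputable def coord (A : Type) [CommRing A] [Algebra ℚ[X] A] : A := algebraMap ℚ[X] A X

/-- The logarithmic height of `x ∈ K`, relative to `K`. -/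
noncomputable def height {K : Type} [Field K] [NumberField K] (x : K) : ℝ := Height.logHeight₁ x

/-- The logarithmic discriminant `log |disc L| / [L : K] - log |disc K|`. -/
noncomputable def logDisc (K L : Type) [Field K] [NumberField K] [Field L] [NumberField L]
    [Algebra K L] : ℝ :=
  Real.log |(discr L : ℝ)| / Module.finrank K L - Real.log |(discr K : ℝ)|

/-- `q - 2 - (∑_j dim (A / (y_{j 0}, y_{j 1}, …))) / N`, where `N` is the rank of `A` over `ℚ[t]`. -/
noncomputable def canonicalDegree {A : Type} [CommRing A] [Algebra ℚ A] [Algebra ℚ[X] A] {q : ℕ}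
    {u : Fin q → ℕ} (y : ∀ j, Fin (u j + 1) → A) : ℝ :=
  q - 2 - (∑ j, (Module.finrank ℚ (A ⧸ Ideal.span (Set.range (y j))) : ℝ)) /
    Module.finrank ℚ[X] A

/-- Vojta's inequality `∑_i (canonicalDegree_i + θ) h(x_i) ≤ d_K(P) + c` for all points `P = (φ_i)`
above `x` over all number fields `L` which contain `K`. -/
def VojtaAbove {K : Type} [Field K] [NumberField K] {n : ℕ} {q : Fin n → ℕ} {A : Fin n → Type}
    [∀ i, CommRing (A i)] [∀ i, Algebra ℚ (A i)] [∀ i, Algebra ℚ[X] (A i)]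
    {u : ∀ i, Fin (q i) → ℕ} (y : ∀ i j, Fin (u i j + 1) → A i) (θ c : ℝ) (x : Fin n → K) : Prop :=
  ∀ (L : Type) [Field L] [NumberField L] [Algebra K L] (φ : ∀ i, A i →+* L),
    (∀ i, φ i (coord (A i)) = algebraMap K L (x i)) →
      ∑ i, (canonicalDegree (y i) + θ) * height (x i) ≤ logDisc K L + c

/-- Let `S` be a set of elements of `K ^ n`. For all products of curves given by Dedekind domains
`A_i`, finite over `ℚ[t]`, distinct rational numbers `a_{i j}`, `1 ≤ j ≤ q_i`, `1 ≤ q_i ≤ Q`, and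
elements `y_{i j 0} = t - a_{i j}, y_{i j 1}, …` of the radicals of the ideals `(t - a_{i j})`, and for
all real `c`: Vojta's inequality holds above all but finitely many `x` in `S` with `x_i ≠ a_{i j}`. -/
def AboveAlmostAll (K : Type) [Field K] [NumberField K] {n : ℕ} (Q : ℕ) (θ : ℝ)
    (S : Set (Fin n → K)) : Prop :=
  ∀ (q : Fin n → ℕ) (A : Fin n → Type) [∀ i, CommRing (A i)] [∀ i, IsDedekindDomain (A i)]
    [∀ i, Algebra ℚ (A i)] [∀ i, Algebra ℚ[X] (A i)] [∀ i, IsScalarTower ℚ ℚ[X] (A i)]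
    [∀ i, Module.Finite ℚ[X] (A i)] [∀ i, FaithfulSMul ℚ[X] (A i)]
    (a : ∀ i, Fin (q i) → ℚ) (u : ∀ i, Fin (q i) → ℕ) (y : ∀ i j, Fin (u i j + 1) → A i),
    (∀ i, 1 ≤ q i) → (∀ i, q i ≤ Q) → (∀ i, Function.Injective (a i)) →
    (∀ i j, y i j 0 = coord (A i) - algebraMap ℚ[X] (A i) (C (a i j))) →
    (∀ i j l, y i j l ∈
      (Ideal.span {coord (A i) - algebraMap ℚ[X] (A i) (C (a i j))}).radical) →
    ∀ c : ℝ, {x | x ∈ S ∧ (∀ i j, x i ≠ (a i j : K)) ∧ ¬ VojtaAbove y θ c x}.Finite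

/-- The exponent. -/
noncomputable def exponent (n Q : ℕ) (θ : ℝ) : ℝ :=
  min (max (θ * n) (2 * n - 4 / 5))
    (min ((2 - 4 * (2 - θ) / (Q : ℝ) ^ 2) * n)
      (((Q : ℝ) - 2 + θ) * (1 - (1 - 2 / (Q : ℝ)) ^ n) * n))

lemma exponent_eq (n Q : ℕ) (θ : ℝ) : exponent n Q θ =
    Pool.Agent.Results.MP_9ec3f0_nt.ProductFibres.exponent n Q (2 - θ) := by
  unfold exponent Pool.Agent.Results.MP_9ec3f0_nt.ProductFibres.exponent
  rw [sub_sub_cancel, ← sub_add]

theorem part_one (K : Type) [Field K] [NumberField K] (n : ℕ) (hn : 1 ≤ n) (Q : ℕ) (hQ : 2 ≤ Q)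
    (θ τ : ℝ) (hθ0 : 0 ≤ θ) (hθ2 : θ < 2) (hτ : 0 < τ) (X : Type) [MetricSpace X]
    (f : (Fin n → K) → X) :
    ∃ E : Set X, dimH E ≤ ENNReal.ofReal (exponent n Q θ / τ) ∧ ∀ ξ ∉ E, ∀ C : ℝ,
      AboveAlmostAll K Q θ {x | dist ξ (f x) ≤ C * Real.exp (-(τ * ⨆ i, height (x i)))} := by
  obtain ⟨E, hE, h⟩ := Pool.Agent.R437.Met.exists_set (K := K) hn f hτ
    (κ := 2 - θ) (by linarith) (by linarith) Q hQ
  rw [← exponent_eq] at hE
  refine ⟨E, hE, fun ξ hξ C₁ => ?_⟩
  obtain ⟨ε, hε, h1⟩ := h ξ hξ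
  intro q A _ _ _ _ _ _ _ a u y hq1 hqQ ha hy0 hyr c
  obtain ⟨T, C₀, h2⟩ := Pool.Agent.R437.Met.viol_sub (K := K) A a u y hy0 hyr (2 - θ) ε hε
  refine (h1 T q a hq1 hqQ ha (C₀ - c) C₁).subset ?_
  rintro x ⟨hx, hne, hv⟩
  have hx' : dist ξ (f x) ≤ C₁ * Real.exp (-(τ * ⨆ i, height (x i))) := hx
  refine ⟨h2 c x hne ?_, ?_⟩
  · unfold VojtaAbove at hv
    push Not at hv
    obtain ⟨L, i1, i2, i3, φ, hφ, hlt⟩ := hv
    refine ⟨L, i1, i2, i3, φ, hφ, ?_⟩
    refine lt_of_lt_of_eq hlt (Finset.sum_congr rfl fun i _ => ?_)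
    unfold canonicalDegree height
    ring
  · refine hx'.trans (le_of_eq ?_)
    congr 1
    unfold Pool.Agent.R437.Met.Ht
    rw [← Real.exp_mul]
    congr 1
    simp only [height]
    ring

lemma height_rat_le (x : ℚ) (d : ℕ) (hd : 0 < d) (hx : x.den ∣ d) (D ξ : ℝ) (hD : 0 ≤ D)
    (h : |ξ - x| ≤ D) : height x ≤ Real.log ((|ξ| + D + 1) * d) := by
  have hd' : (1 : ℝ) ≤ d := by exact_mod_cast hd
  have h0 : 0 ≤ |ξ| := abs_nonneg ξ
  have h1 : height x = Real.log ((max x.num.natAbs x.den : ℕ) : ℝ) := Rat.logHeight₁_eq_log_max x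
  have hle : (x.den : ℝ) ≤ d := by exact_mod_cast Nat.le_of_dvd hd hx
  have hden : (0 : ℝ) < x.den := by exact_mod_cast x.den_pos
  rw [h1]
  refine Real.log_le_log ?_ ?_
  · have : 0 < max x.num.natAbs x.den := lt_of_lt_of_le x.den_pos (le_max_right _ _)
    exact_mod_cast this
  · push_cast
    refine max_le ?_ ?_
    · have h2 : |(x : ℝ)| ≤ |ξ| + D := by
        have := abs_sub_abs_le_abs_sub (x : ℝ) ξ
        rw [abs_sub_comm] at this
        linarith
      have h3 : (x : ℝ) = x.num / x.den := by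
        exact_mod_cast (Rat.num_div_den x).symm
      have h4 : |(x.num : ℝ)| = |(x : ℝ)| * x.den := by
        rw [h3, abs_div, abs_of_pos hden]
        field_simp
      rw [Nat.cast_natAbs, Int.cast_abs, h4]
      nlinarith [abs_nonneg (x : ℝ)]
    · nlinarith

theorem part_two (n : ℕ) (hn : 1 ≤ n) (Q : ℕ) (hQ : 2 ≤ Q)
    (θ τ : ℝ) (hθ0 : 0 ≤ θ) (hθ2 : θ < 2) (hτ : 0 < τ) :
    ∃ E : Set (Fin n → ℝ), dimH E ≤ ENNReal.ofReal (exponent n Q θ / τ) ∧ ∀ ξ ∉ E, ∀ C : ℝ,
      AboveAlmostAll ℚ Q θ {x | ∃ d : ℕ, 0 < d ∧ (∀ i, (x i).den ∣ d) ∧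
        ∀ i, |ξ i - x i| ≤ C * (d : ℝ) ^ (-τ)} := by
  obtain ⟨E, hE, h⟩ := part_one ℚ n hn Q hQ θ τ hθ0 hθ2 hτ (Fin n → ℝ)
    (fun x i => ((x i : ℚ) : ℝ))
  refine ⟨E, hE, fun ξ hξ C₁ => ?_⟩
  set D : ℝ := ∑ i, |ξ i| + |C₁| + 1 with hD
  have hD1 : 1 ≤ D := by
    have : 0 ≤ ∑ i, |ξ i| := Finset.sum_nonneg fun _ _ => abs_nonneg _
    linarith [abs_nonneg C₁]
  intro q A _ _ _ _ _ _ _ a u y hq1 hqQ ha hy0 hyr c
  refine (h ξ hξ (|C₁| * D ^ τ) q A a u y hq1 hqQ ha hy0 hyr c).subset ?_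
  rintro x ⟨⟨d, hd, hden, hx⟩, hne, hv⟩
  have hd' : (1 : ℝ) ≤ d := by exact_mod_cast hd
  refine ⟨?_, hne, hv⟩
  have hdτ : (d : ℝ) ^ (-τ) ≤ 1 := Real.rpow_le_one_of_one_le_of_nonpos hd' (by linarith)
  have hdτ0 : 0 < (d : ℝ) ^ (-τ) := by positivity
  have hx1 : ∀ i, |ξ i - x i| ≤ |C₁| * (d : ℝ) ^ (-τ) := fun i =>
    (hx i).trans (mul_le_mul_of_nonneg_right (le_abs_self _) hdτ0.le)
  have hsup : ⨆ i, height (x i) ≤ Real.log (D * d) := by
    have hlog : 0 ≤ Real.log (D * d) := Real.log_nonneg (by nlinarith)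
    refine Real.iSup_le (fun i => ?_) hlog
    refine (height_rat_le (x i) d hd (hden i) (|C₁|) (ξ i) (abs_nonneg _) ?_).trans ?_
    · refine (hx1 i).trans ?_
      nlinarith [abs_nonneg C₁]
    · refine Real.log_le_log (by have := abs_nonneg (ξ i); have := abs_nonneg C₁; positivity) ?_
      refine mul_le_mul_of_nonneg_right ?_ (by linarith)
      have : |ξ i| ≤ ∑ i, |ξ i| :=
        Finset.single_le_sum (f := fun i => |ξ i|) (fun _ _ => abs_nonneg _) (Finset.mem_univ i)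
      linarith
  have hexp : (D * d) ^ (-τ) ≤ Real.exp (-(τ * ⨆ i, height (x i))) := by
    rw [Real.rpow_def_of_pos (by positivity)]
    refine Real.exp_le_exp.2 ?_
    nlinarith
  show dist ξ (fun i => ((x i : ℚ) : ℝ)) ≤
    |C₁| * D ^ τ * Real.exp (-(τ * ⨆ i, height (x i)))
  have hnn : 0 ≤ |C₁| * D ^ τ * Real.exp (-(τ * ⨆ i, height (x i))) := by positivity
  rw [dist_pi_le_iff hnn]
  intro i
  rw [Real.dist_eq]
  refine (hx1 i).trans ?_
  rw [mul_assoc]
  refine mul_le_mul_of_nonneg_left ?_ (abs_nonneg _)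
  calc (d : ℝ) ^ (-τ) = D ^ τ * (D * d) ^ (-τ) := by
        rw [Real.mul_rpow (by positivity) (by positivity), ← mul_assoc,
          ← Real.rpow_add (by positivity)]
        simp
    _ ≤ D ^ τ * Real.exp (-(τ * ⨆ i, height (x i))) :=
        mul_le_mul_of_nonneg_left hexp (by positivity)

/-- **Vojta's inequality above good approximations.** Let `n ≥ 1`, `Q ≥ 2`, `0 ≤ θ < 2` and `τ > 0`.
(1) Let `K` be a number field and `f` any map of `K ^ n` to a metric space `X` (for instance the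
inclusion in `ℝ ^ n`, `ℂ ^ n` or in the `n`-th power of a completion of `K`). There is a subset `E` of
`X` of Hausdorff dimension at most `exponent n Q θ / τ` such that for all `ξ` outside `E`, all `C`, all
products of `n` curves over number fields, with at most `Q` branch points, and all `c` the
inequality `∑_i (canonicalDegree_i + θ) h(x_i) ≤ d_K(P) + c` holds for all points `P` above all but
finitely many `x ∈ K ^ n` (with `x_i ≠ a_{i j}`) such that `f(x)` has distance at most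
`C exp (-τ max h(x_i))` from `ξ`. (2) There is a subset `E` of `ℝ ^ n` of Hausdorff dimension at most
`exponent n Q θ / τ` such that for all `ξ` outside `E` and all `C` this holds for all points above all
but finitely many `x ∈ ℚ ^ n` with a common denominator `d` such that `|ξ_i - x_i| ≤ C d ^ (-τ)`; for
`τ = 1 + 1 / n` such `x` are provided by Dirichlet's theorem. The exponent is smaller than `2 n`; for
`Q = 3` and `θ = 0` it is at most `n (1 - 3 ^ (-n))`. -/
theorem result (n : ℕ) (hn : 1 ≤ n) (Q : ℕ) (hQ : 2 ≤ Q) (θ τ : ℝ) (hθ0 : 0 ≤ θ) (hθ2 : θ < 2)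
    (hτ : 0 < τ) :
    exponent n Q θ < 2 * n ∧ exponent n 3 0 ≤ n * (1 - (1 / 3) ^ n) ∧
    (∀ (K : Type) [Field K] [NumberField K] (X : Type) [MetricSpace X] (f : (Fin n → K) → X),
      ∃ E : Set X, dimH E ≤ ENNReal.ofReal (exponent n Q θ / τ) ∧ ∀ ξ ∉ E, ∀ C : ℝ,
        AboveAlmostAll K Q θ {x | dist ξ (f x) ≤ C * Real.exp (-(τ * ⨆ i, height (x i)))}) ∧
    ∃ E : Set (Fin n → ℝ), dimH E ≤ ENNReal.ofReal (exponent n Q θ / τ) ∧ ∀ ξ ∉ E, ∀ C : ℝ,
      AboveAlmostAll ℚ Q θ {x | ∃ d : ℕ, 0 < d ∧ (∀ i, (x i).den ∣ d) ∧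
        ∀ i, |ξ i - x i| ≤ C * (d : ℝ) ^ (-τ)} := by
  refine ⟨?_, ?_, ?_, part_two n hn Q hQ θ τ hθ0 hθ2 hτ⟩
  · rw [exponent_eq]
    exact Pool.Agent.TH905.VF.exponent_lt n Q hn hQ (2 - θ) (by linarith)
  · refine ((min_le_right _ _).trans (min_le_right _ _)).trans (le_of_eq ?_)
    have e1 : (1 : ℝ) - 2 / ((3 : ℕ) : ℝ) = 1 / 3 := by norm_num
    rw [e1]
    push_cast
    ring
  · intro K _ _ X _ f
    exact part_one K n hn Q hQ θ τ hθ0 hθ2 hτ X f

end Pool.Agent.Results.MP_9b9442_nt.GoodApproximations
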