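import Mathlib
import Pool.Agent.R338.LogF

/-!
# Vojta's conjecture for quadratic points of curves: a logarithmic error term is necessary

Let `R` be a polynomial of degree `2 g - 3` over `ℤ`, `g ≥ 2`, such that
`f = (x ^ 3 - 2) (x - 3) R (x)` has no multiple zeros. The smooth projective model `X` of
`y ^ 2 = f (x)` is a curve of genus `g` over `k = ℚ`. It has one point `∞` at infinity,
`K_X = (2 g - 2) ∞`, and `2 ∞` is the fibre of `x` over `∞`. So `h_{K_X} (P) = (g - 1) h (x (P))` up
to a bounded function, and the closed points `P` over the rational points `x` have degree at most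
two. For every ample divisor `A` one has `log h_A (P) = log h (x) + O(1)`.

Vojta's conjecture says that `h_{K_X} (P) ≤ d (P) + ε h_A (P) + O(1)` for the points of degree at
most two, up to finitely many. We show that the term `ε h_A (P)` cannot be replaced by a bounded function, not even by
`c log h_A (P)` with `c < 1 / 4`.

The point `Q = (3, 5)` of the elliptic curve `E : w ^ 2 = x ^ 3 - 2` has infinite order. The points
over the abscissa `x` of `(2 ^ (j + 1) + 1) Q` do this: `x ^ 3 - 2` is a square, `x - 3` is divisible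
by `2 ^ (j + 2)`, and `h (x)` has the order of `4 ^ j`.
-/

set_option autoImplicit false

namespace Pool.Agent.Results.MP_9b9442_nt.LogErrorTerm

open NumberField Module IntermediateField

/-- The polynomial function `f = (x ^ 3 - 2) (x - 3) R (x)`. -/
noncomputable def f (R : Polynomial ℤ) (x : ℚ) : ℚ :=
  (x ^ 3 - 2) * (x - 3) * Polynomial.aeval x R

/-- The logarithmic height of a rational number. -/
noncomputable def height (x : ℚ) : ℝ := Real.log ((max x.num.natAbs x.den : ℕ) : ℝ)

/-- The logarithmic discriminant `log |disc L| / [L : ℚ]`. -/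
noncomputable def logDisc (L : Type) [Field L] [NumberField L] : ℝ :=
  Real.log |(discr L : ℝ)| / finrank ℚ L

/-- `P = (x, y)` is a closed point of `y ^ 2 = f (x)` with `x` rational, the residue field is
`L = ℚ(y)`, of degree at most two, and `h_K (P) > d (P) + c log h (x) + C`, where
`h_K (P) = (g - 1) h (x)`. -/
def Violates (g : ℕ) (R : Polynomial ℤ) (c C : ℝ) (x : ℚ) (L : Type) [Field L] [NumberField L]
    (y : L) : Prop :=
  y ^ 2 = (f R x : L) ∧ ℚ⟮y⟯ = ⊤ ∧ finrank ℚ L ≤ 2 ∧
    ((g : ℝ) - 1) * height x > logDisc L + c * Real.log (height x) + C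

/-- **Vojta's inequality for quadratic points needs a logarithmic error term.** Let `R` be an
integral polynomial of degree `2 g - 3` (so `g ≥ 2` and `f` has degree `2 g + 1`), `c < 1 / 4` and
`C` arbitrary. Then the inequality `h_K (P) ≤ d (P) + c log h (x) + C` is violated by infinitely many
closed points `P` of degree at most two of `y ^ 2 = f (x)`. -/
theorem result (g : ℕ) (R : Polynomial ℤ) (hR : R.natDegree + 3 = 2 * g) (c C : ℝ)
    (hc : c < 1 / 4) :
    {x : ℚ | ∃ (L : Type) (_ : Field L) (_ : NumberField L) (y : L),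
      Violates g R c C x L y}.Infinite := by
  obtain ⟨n, rfl⟩ : ∃ n, g = n + 2 := ⟨g - 2, by omega⟩
  obtain ⟨J, hJ⟩ := R338.Dbl.logmain n R (by omega) c C hc
  set S := {x : ℚ | ∃ (L : Type) (_ : Field L) (_ : NumberField L) (y : L),
      Violates (n + 2) R c C x L y} with hS
  have hmem : ∀ j, J ≤ j → R338.Dbl.T j ∈ S := by
    intro j hj
    obtain ⟨y, hy⟩ : ∃ y : ℂ, y ^ 2 = ((f R (R338.Dbl.T j) : ℚ) : ℂ) :=
      IsAlgClosed.exists_pow_nat_eq _ (by norm_num)
    have hint : IsIntegral ℚ y := by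
      refine ⟨Polynomial.X ^ 2 - Polynomial.C (f R (R338.Dbl.T j)),
        Polynomial.monic_X_pow_sub_C _ (by norm_num), ?_⟩
      rw [Polynomial.eval₂_sub, Polynomial.eval₂_pow, Polynomial.eval₂_X, Polynomial.eval₂_C, hy]
      simp
    have hfd : FiniteDimensional ℚ ℚ⟮y⟯ := IntermediateField.adjoin.finiteDimensional hint
    have hNF : NumberField ℚ⟮y⟯ := { to_charZero := inferInstance, to_finiteDimensional := hfd }
    have hmy : y ∈ ℚ⟮y⟯ := IntermediateField.mem_adjoin_simple_self ℚ y
    have hy' : (⟨y, hmy⟩ : ℚ⟮y⟯) ^ 2 = ((f R (R338.Dbl.T j) : ℚ) : ℚ⟮y⟯) := by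
      apply Subtype.ext
      have := hy
      simpa using this
    have htop : ℚ⟮(⟨y, hmy⟩ : ℚ⟮y⟯)⟯ = ⊤ := by
      apply R338.adjoin_self_top
      rw [Set.image_singleton]
    obtain ⟨h1, h2⟩ := hJ j hj ℚ⟮y⟯ ⟨y, hmy⟩ hy' htop
    refine ⟨ℚ⟮y⟯, inferInstance, hNF, ⟨y, hmy⟩, hy', htop, h1, ?_⟩
    have e : ((((n + 2 : ℕ) : ℝ)) - 1) = (n : ℝ) + 1 := by push_cast; ring
    rw [e]
    exact h2
  intro hfin
  obtain ⟨B, hB⟩ := (hfin.image R338.Dbl.ht).bddAbove
  have h7 : 0 < Real.log 2 := Real.log_pos (by norm_num)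
  obtain ⟨J1, hJ1⟩ := exists_nat_gt (B / Real.log 2)
  have h1 := hB ⟨_, hmem (J + J1 + 1) (by omega), rfl⟩
  have h2 := R338.Dbl.ht_T_ge (j := J + J1 + 1) (by omega)
  rw [div_lt_iff₀ h7] at hJ1
  push_cast at h2
  have h3 : (0 : ℝ) ≤ J := by positivity
  nlinarith

end Pool.Agent.Results.MP_9b9442_nt.LogErrorTerm
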