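import Mathlib
import Pool.Agent.R338.Quad

/-!
# Vojta's conjecture for quadratic points of a surface: the degree of the exceptional set

Let `f = x (x ^ 3 - 2) (x ^ 3 - 8)`, and let `X` be the canonical resolution of the double cover
`y ^ 2 = f (x₁) f (x₂)` of `ℙ¹ × ℙ¹`. The branch curve has bidegree `(8, 8)` (the fibres over the
zeros of `f` and over `∞`, in both directions) and only nodes, so `K_X` is the pull-back of
`O (2, 2)`: `X` is a minimal surface of general type over `k = ℚ`, and `K_X = 2 A` with `A` the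
pull-back of `O (1, 1)`, which is big and nef. So `h_A (P) = h (x₁) + h (x₂)` and
`h_{K_X} (P) = 2 (h (x₁) + h (x₂))`, up to bounded functions. The closed points `P` of `X` over a
rational point `(x₁, x₂)` have degree at most two, their residue field is `ℚ (y)`.

A proper closed subset `Z` of `X` has a proper closed image in `ℙ¹ × ℙ¹`, which (in the affine part)
is in the zero set of a polynomial `G ≠ 0` in two variables; if Vojta's inequality holds outside `Z`,
then it holds for all `P` with `G (x₁, x₂) ≠ 0`. The degrees of `G` in `x₁` and `x₂` are the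
bidegree of the image.

The curves in question are the curves `x₂ = φ^j (x₁)` and `x₁ = φ^j (x₂)`, where `φ` is the map
`x (Q) ↦ x (2 Q)` of the elliptic curve `w ^ 2 = x ^ 3 - 2`. Over the abscissae `x₁` of the points
`2 ^ i Q` of this curve the squarefree part of `f (x₁) f (φ^j (x₁))` is small.
-/

set_option autoImplicit false

namespace Pool.Agent.Results.MP_9b9442_nt.QuadraticPointsDegree

open NumberField Module IntermediateField

/-- The polynomial `f = x (x ^ 3 - 2) (x ^ 3 - 8)` of degree seven. -/
def f (x : ℚ) : ℚ := x * (x ^ 3 - 2) * (x ^ 3 - 8)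

/-- The logarithmic height of a rational number. -/
noncomputable def height (x : ℚ) : ℝ := Real.log ((max x.num.natAbs x.den : ℕ) : ℝ)

/-- The logarithmic discriminant `log |disc L| / [L : ℚ]`. -/
noncomputable def logDisc (L : Type) [Field L] [NumberField L] : ℝ :=
  Real.log |(discr L : ℝ)| / finrank ℚ L

/-- The inequality `h_K (P) ≤ d (P) + ψ (h_A (P))` for the points `P = (x₁, x₂, y)` of `X` of degree
at most two over the rational points `(x₁, x₂)` with `G (x₁, x₂) ≠ 0`; `L` is the residue field. -/
def VojtaInequality (G : MvPolynomial (Fin 2) ℚ) (ψ : ℝ → ℝ) : Prop :=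
  ∀ (L : Type) [Field L] [NumberField L] (x₁ x₂ : ℚ) (y : L),
    y ^ 2 = ((f x₁ * f x₂ : ℚ) : L) → ℚ⟮y⟯ = ⊤ → finrank ℚ L ≤ 2 →
    MvPolynomial.eval ![x₁, x₂] G ≠ 0 →
    2 * (height x₁ + height x₂) ≤ logDisc L + ψ (height x₁ + height x₂)

/-- **The degree of the exceptional set for quadratic points is at least `1 / ε`, up to constants.**

(1) Let `G ≠ 0` and `ε > 0`. Suppose that Vojta's inequality `h_K (P) ≤ d (P) + ε h_A (P) + c` holds
for all points `P` of `X` of degree at most two over the rational points with `G (x₁, x₂) ≠ 0`.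
Then the degrees of `G` in `x₁` and in `x₂` are at least `(4 / ε - 2) / 3`.

(2) For `G ≠ 0` and every function `ψ (t) = o(t)` the inequality `h_K (P) ≤ d (P) + ψ (h_A (P))`
fails for some of these points. -/
theorem result :
    (∀ (G : MvPolynomial (Fin 2) ℚ) (ε c : ℝ), G ≠ 0 → 0 < ε →
      VojtaInequality G (fun t => ε * t + c) →
      ∀ i : Fin 2, (4 / ε - 2) / 3 ≤ (G.degreeOf i : ℝ)) ∧
    (∀ ψ : ℝ → ℝ, Filter.Tendsto (fun t => ψ t / t) Filter.atTop (nhds 0) →
      ∀ G : MvPolynomial (Fin 2) ℚ, G ≠ 0 → ¬ VojtaInequality G ψ) := by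
  refine ⟨fun G ε c hG hε hV i => ?_, fun ψ hψ G hG hV => ?_⟩
  · exact R338.Dbl.VI.degree' (ψ := fun t => ε * t + c)
      (fun L _ _ x₁ x₂ y hy htop hdeg hne => hV L x₁ x₂ y hy htop hdeg hne) hG ε c hε
      (Filter.Eventually.of_forall fun t => le_rfl) i
  · set d : ℝ := (G.degreeOf 0 : ℝ) with hd
    have hd0 : 0 ≤ d := Nat.cast_nonneg _
    set ε : ℝ := 1 / (d + 1) with hε
    have hε0 : 0 < ε := by positivity
    have h1 : ∀ᶠ t in Filter.atTop, ψ t ≤ ε * t + 0 := by
      filter_upwards [hψ.eventually (gt_mem_nhds hε0), Filter.eventually_gt_atTop 0] with t h2 h3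
      rw [div_lt_iff₀ h3] at h2
      linarith
    have h2 := R338.Dbl.VI.degree' (ψ := ψ)
      (fun L _ _ x₁ x₂ y hy htop hdeg hne => hV L x₁ x₂ y hy htop hdeg hne) hG ε 0 hε0 h1 0
    have h3 : 4 / ε = 4 * (d + 1) := by
      rw [hε]
      field_simp
    rw [h3] at h2
    linarith

end Pool.Agent.Results.MP_9b9442_nt.QuadraticPointsDegree
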